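import Pool.Agent.V7H5.LD.Low

set_option autoImplicit false

/-! Graphs of given Littlestone dimension: asymptotics. -/

namespace Pool.Agent.V7H5.LD

open Finset Filter Topology

theorem bs_le {x : ℝ} (hx0 : 0 < x) (hx1 : x ≤ 1) (m N : ℕ) :
    Real.log (bs m N) ≤ m * Real.log (1 / x) + x * N := by
  have h1 : (bs m N : ℝ) * x ^ m ≤ (1 + x) ^ N := by
    have h2 : (bs m N : ℝ) * x ^ m = ∑ j ∈ range (m + 1), (N.choose j : ℝ) * x ^ m := by
      unfold bs
      push_cast
      rw [sum_mul]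
    rw [h2]
    have h3 : ∑ j ∈ range (m + 1), (N.choose j : ℝ) * x ^ m ≤ ∑ j ∈ range (m + 1), (N.choose j : ℝ) * x ^ j := by
      apply sum_le_sum
      intro j hj
      rw [mem_range] at hj
      apply mul_le_mul_of_nonneg_left _ (by positivity)
      exact pow_le_pow_of_le_one hx0.le hx1 (by omega)
    refine h3.trans ?_
    have h4 : (1 + x) ^ N = ∑ j ∈ range (N + 1), (N.choose j : ℝ) * x ^ j := by
      rw [add_comm 1 x, add_pow]
      apply sum_congr rfl
      intro j _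
      rw [one_pow]; ring
    rw [h4]
    rcases le_total m N with h | h
    · apply sum_le_sum_of_subset_of_nonneg
      · exact range_subset_range.mpr (by omega)
      · intro j _ _; positivity
    · apply le_of_eq
      symm
      apply sum_subset (range_subset_range.mpr (by omega))
      intro j _ hj
      rw [mem_range] at hj
      rw [Nat.choose_eq_zero_of_lt (by omega)]
      simp
  have h5 : (1 + x) ^ N ≤ Real.exp (x * N) := by
    rw [mul_comm, Real.exp_nat_mul]
    apply pow_le_pow_left₀ (by linarith)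
    rw [add_comm]
    exact Real.add_one_le_exp x
  have hb : (0 : ℝ) < bs m N := by exact_mod_cast bs_pos m N
  have h6 := Real.log_le_log (by positivity) (h1.trans h5)
  rw [Real.log_exp, Real.log_mul hb.ne' (by positivity), Real.log_pow] at h6
  rw [Real.log_div one_ne_zero hx0.ne', Real.log_one]
  linarith

/-- the upper bound for the logarithm -/
theorem log_upper {n k d : ℕ} (hk : 1 ≤ k) {x : ℝ} (hx0 : 0 < x) (hx1 : x ≤ 1) (G : SimpleGraph (Fin n))
    (h1 : G.CliqueFree k) (h2 : Gᶜ.CliqueFree k) (h3 : ¬ MT G (d + 1) Set.univ) :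
    Real.log n ≤ (d + 1) * Real.log (1 / x) + x * (2 * k) := by
  have h := upper_diag hk G h1 h2 h3
  have h4 := bs_le hx0 hx1 (d + 1) (2 * k - 2)
  have h5 : Real.log n ≤ Real.log (bs (d + 1) (2 * k - 2)) := by
    rcases Nat.eq_zero_or_pos n with h0 | h0
    · subst h0
      simp only [Nat.cast_zero, Real.log_zero]
      apply Real.log_nonneg
      exact_mod_cast bs_pos _ _
    · apply Real.log_le_log (by exact_mod_cast h0)
      exact_mod_cast h.le
  have h6 : ((2 * k - 2 : ℕ) : ℝ) ≤ 2 * k := by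
    have : 2 * k - 2 ≤ 2 * k := Nat.sub_le _ _
    exact_mod_cast this
  push_cast at h4
  have h7 := mul_le_mul_of_nonneg_left h6 hx0.le
  linarith

theorem upper_sharp {η : ℝ} (hη : 0 < η) : ∃ R : ℕ, 1 ≤ R ∧ ∀ d k : ℕ, R ≤ d → R * d ≤ k →
    ∀ (n : ℕ) (G : SimpleGraph (Fin n)), G.CliqueFree k → Gᶜ.CliqueFree k →
      ¬ MT G (d + 1) Set.univ → Real.log n ≤ (1 + η) * (d * Real.log ((k : ℝ) / d)) := by
  obtain ⟨R, hR⟩ := exists_nat_ge (max (2 / η) (Real.exp (6 / η)))
  have hR1 : 2 / η ≤ R := (le_max_left _ _).trans hR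
  have hR2 : Real.exp (6 / η) ≤ R := (le_max_right _ _).trans hR
  have hR0 : (0 : ℝ) < R := lt_of_lt_of_le (Real.exp_pos _) hR2
  have hR3 : 1 ≤ R := by exact_mod_cast (Nat.cast_pos.mp hR0)
  refine ⟨R, hR3, fun d k hd hk n G h1 h2 h3 => ?_⟩
  have hd0 : 0 < d := by omega
  have hk0 : 0 < k := lt_of_lt_of_le (Nat.mul_pos (by omega) hd0) hk
  have hdr : (0 : ℝ) < d := by exact_mod_cast hd0
  have hkr : (0 : ℝ) < k := by exact_mod_cast hk0
  have hkd : (R : ℝ) ≤ (k : ℝ) / d := by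
    rw [le_div_iff₀ hdr]
    exact_mod_cast hk
  obtain ⟨L, hL⟩ : ∃ L, L = Real.log ((k : ℝ) / d) := ⟨_, rfl⟩
  have hL6 : 6 / η ≤ L := by
    rw [hL, Real.le_log_iff_exp_le (by positivity)]
    exact hR2.trans hkd
  have hL0 : 0 < L := lt_of_lt_of_le (by positivity) hL6
  have hx1 : (d : ℝ) / k ≤ 1 := by
    rw [div_le_one hkr]
    have : d ≤ k := le_trans (Nat.le_mul_of_pos_left d (by omega)) hk
    exact_mod_cast this
  have h4 := log_upper (x := (d : ℝ) / k) hk0 (by positivity) hx1 G h1 h2 h3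
  have e1 : (1 : ℝ) / ((d : ℝ) / k) = (k : ℝ) / d := by field_simp
  have e2 : (d : ℝ) / k * (2 * k) = 2 * d := by field_simp
  rw [e1, e2, ← hL] at h4
  rw [← hL]
  refine h4.trans ?_
  have h5 : 2 ≤ η * d := by
    have := (div_le_iff₀ hη).mp (hR1.trans (by exact_mod_cast hd : (R : ℝ) ≤ d))
    linarith
  have h6 : 6 ≤ η * L := by
    have := (div_le_iff₀ hη).mp hL6
    linarith
  nlinarith [mul_le_mul_of_nonneg_right h5 hL0.le, mul_le_mul_of_nonneg_left h6 hdr.le]

theorem floor_ge_half {y : ℝ} (hy : 1 ≤ y) : y / 2 ≤ (⌊y⌋₊ : ℝ) := by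
  have h1 : (1 : ℝ) ≤ ⌊y⌋₊ := by
    have := Nat.le_floor (a := y) (n := 1) (by exact_mod_cast hy)
    exact_mod_cast this
  have h2 := Nat.lt_floor_add_one y
  linarith

theorem lower_sharp {δ : ℝ} (hδ : 0 < δ) (hδ1 : δ ≤ 1 / 12) : ∃ R : ℕ, 1 ≤ R ∧ ∀ d k : ℕ, R ≤ d →
    R * d ≤ k → ∃ (n : ℕ) (G : SimpleGraph (Fin n)), G.CliqueFree k ∧ Gᶜ.CliqueFree k ∧
      ¬ MT G (d + 1) Set.univ ∧ (1 - 6 * δ) * (d * Real.log ((k : ℝ) / d)) ≤ Real.log n := by
  obtain ⟨M, hM⟩ := exists_nat_ge (1 / δ)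
  have hM0 : (0 : ℝ) < M := lt_of_lt_of_le (by positivity) hM
  have hMδ : 1 ≤ δ * M := by
    have := (div_le_iff₀ hδ).mp hM
    linarith
  have hl2 : (1 : ℝ) / 2 < Real.log 2 := by
    have := Real.log_two_gt_d9; linarith
  have hl2' : Real.log 2 < 1 := by
    have := Real.log_two_lt_d9; linarith
  obtain ⟨R, hR⟩ := exists_nat_ge (max (max ((M : ℝ) + 2) (2 / δ)) (max (Real.exp (16 / δ ^ 2)) (8 * M / δ ^ 2)))
  have hR1 : (M : ℝ) + 2 ≤ R := ((le_max_left _ _).trans (le_max_left _ _)).trans hR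
  have hR2 : 2 / δ ≤ R := ((le_max_right _ _).trans (le_max_left _ _)).trans hR
  have hR3 : Real.exp (16 / δ ^ 2) ≤ R := ((le_max_left _ _).trans (le_max_right _ _)).trans hR
  have hR4 : 8 * M / δ ^ 2 ≤ R := ((le_max_right _ _).trans (le_max_right _ _)).trans hR
  have hR0 : (0 : ℝ) < R := by linarith
  have hR5 : 1 ≤ R := by exact_mod_cast (Nat.cast_pos.mp hR0)
  refine ⟨R, hR5, fun d k hd hk => ?_⟩
  have hd0 : 0 < d := by omega
  have hk0 : 0 < k := lt_of_lt_of_le (Nat.mul_pos (by omega) hd0) hk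
  have hdr : (0 : ℝ) < d := by exact_mod_cast hd0
  have hkr : (0 : ℝ) < k := by exact_mod_cast hk0
  have hdR : (R : ℝ) ≤ d := by exact_mod_cast hd
  have hRdk : (R : ℝ) * d ≤ k := by exact_mod_cast hk
  have hkd : (R : ℝ) ≤ (k : ℝ) / d := by
    rw [le_div_iff₀ hdr]
    exact hRdk
  obtain ⟨L, hL⟩ : ∃ L, L = Real.log ((k : ℝ) / d) := ⟨_, rfl⟩
  have hL16 : 16 / δ ^ 2 ≤ L := by
    rw [hL, Real.le_log_iff_exp_le (by positivity)]
    exact hR3.trans hkd
  have hL0 : 0 < L := lt_of_lt_of_le (by positivity) hL16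
  have hexpL : Real.exp L = (k : ℝ) / d := by rw [hL, Real.exp_log (by positivity)]
  have hδL : 16 ≤ δ ^ 2 * L := by
    have := (div_le_iff₀ (by positivity : 0 < δ ^ 2)).mp hL16
    linarith
  have hδLL : δ * L ≤ 1 / 12 * L := mul_le_mul_of_nonneg_right hδ1 hL0.le
  have hδL2 : 16 ≤ δ * L := by
    have h1 := mul_le_mul_of_nonneg_right hδ1 (mul_nonneg hδ.le hL0.le)
    linarith only [h1, hδL, mul_nonneg hδ.le hL0.le]
  have hL16' : 16 ≤ L := by linarith only [hδLL, hδL2]
  have hδd : 2 ≤ δ * d := by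
    have := (div_le_iff₀ hδ).mp (hR2.trans hdR)
    linarith
  -- t
  obtain ⟨t, ht⟩ : ∃ t, t = ⌊(1 - δ) * (d : ℝ)⌋₊ := ⟨_, rfl⟩
  have ht1 : (t : ℝ) ≤ (1 - δ) * d := by
    rw [ht]; exact Nat.floor_le (mul_nonneg (by linarith) hdr.le)
  have ht2 : (1 - δ) * d < t + 1 := by
    rw [ht]; exact Nat.lt_floor_add_one _
  have hδdd : δ * d ≤ 1 / 12 * d := mul_le_mul_of_nonneg_right hδ1 hdr.le
  have ht3 : (1 - 2 * δ) * d ≤ t := by linarith only [ht2, hδd]
  have htdr : (t : ℝ) ≤ d := by linarith only [ht1, hδd]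
  have htd : t ≤ d := by exact_mod_cast htdr
  have ht4 : (d : ℝ) / 2 ≤ t := by linarith only [ht3, hδdd, hdr]
  have ht0 : (0 : ℝ) < t := by linarith only [ht4, hdr]
  have hδt : 1 ≤ δ * t := by
    have h1 := mul_le_mul_of_nonneg_left ht4 hδ.le
    linarith only [h1, hδd]
  have ht1' : (1 : ℝ) ≤ t := by
    have : 0 < t := by exact_mod_cast ht0
    exact_mod_cast this
  -- j
  obtain ⟨j, hj⟩ : ∃ j, j = d + 1 - t := ⟨_, rfl⟩
  have htj : t + j = d + 1 := by omega
  have hjr : δ * d ≤ j := by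
    have h1 : (t : ℝ) + j = d + 1 := by exact_mod_cast htj
    linarith only [h1, ht1]
  have hs : M * t ≤ 2 ^ j := by
    have h1 : (M : ℝ) * t ≤ (2 : ℝ) ^ j := by
      have h2 : Real.exp (δ * d * Real.log 2) ≤ (2 : ℝ) ^ j := by
        have e : (2 : ℝ) ^ j = Real.exp (j * Real.log 2) := by
          rw [Real.exp_nat_mul, Real.exp_log (by norm_num)]
        rw [e, Real.exp_le_exp]
        exact mul_le_mul_of_nonneg_right hjr (by linarith)
      have h3 := Real.quadratic_le_exp_of_nonneg (x := δ * d * Real.log 2) (by positivity)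
      have h4 : (M : ℝ) * t ≤ (δ * d * Real.log 2) ^ 2 / 2 := by
        have h5 : 8 * M ≤ δ ^ 2 * d := by
          have := (div_le_iff₀ (by positivity : 0 < δ ^ 2)).mp (hR4.trans hdR)
          linarith
        have h6 : (δ * d * Real.log 2) ^ 2 / 2 ≥ (δ * d * (1 / 2)) ^ 2 / 2 := by
          have : δ * d * (1 / 2) ≤ δ * d * Real.log 2 := mul_le_mul_of_nonneg_left hl2.le (by positivity)
          have := pow_le_pow_left₀ (by positivity) this 2
          linarith
        have h7 : (δ * d * (1 / 2)) ^ 2 / 2 = (δ ^ 2 * d) * d / 8 := by ring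
        have h8 : (8 * M) * d ≤ (δ ^ 2 * d) * d := mul_le_mul_of_nonneg_right h5 hdr.le
        have h9 : (M : ℝ) * t ≤ M * d := mul_le_mul_of_nonneg_left htdr hM0.le
        linarith only [h6, h7, h8, h9]
      have h10 : 0 ≤ δ * d * Real.log 2 := by positivity
      linarith
    exact_mod_cast h1
  -- Q
  obtain ⟨Q, hQ⟩ : ∃ Q, Q = ⌊Real.exp ((1 - δ) * L)⌋₊ := ⟨_, rfl⟩
  have hexp1 : 1 ≤ Real.exp ((1 - δ) * L) := Real.one_le_exp (mul_nonneg (by linarith) hL0.le)
  have hQ1 : (Q : ℝ) ≤ Real.exp ((1 - δ) * L) := by rw [hQ]; exact Nat.floor_le (by positivity)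
  have hQ2 : Real.exp ((1 - δ) * L) / 2 ≤ Q := by rw [hQ]; exact floor_ge_half hexp1
  have hQ0 : (0 : ℝ) < Q := lt_of_lt_of_le (by positivity) hQ2
  have hQne : Q ≠ 0 := by
    have : 0 < Q := by exact_mod_cast hQ0
    omega
  have : NeZero Q := ⟨hQne⟩
  obtain ⟨q, hq⟩ : ∃ q, q = Real.log Q := ⟨_, rfl⟩
  have hq1 : q ≤ (1 - δ) * L := by
    rw [hq]
    exact (Real.log_le_iff_le_exp hQ0).mpr hQ1
  have hq2 : (1 - δ) * L - Real.log 2 ≤ q := by
    rw [hq, Real.le_log_iff_exp_le hQ0, Real.exp_sub, Real.exp_log (by norm_num)]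
    exact hQ2
  have hq3 : (1 - 2 * δ) * L ≤ q := by linarith only [hq2, hl2', hδL2]
  have hq4 : 1 ≤ q := by linarith only [hq3, hδLL, hL16']
  -- n
  obtain ⟨lam, hlam⟩ : ∃ lam, lam = (1 - δ) * t * q := ⟨_, rfl⟩
  have hlam0 : 0 ≤ lam := by
    rw [hlam]
    have : 0 ≤ 1 - δ := by linarith
    positivity
  obtain ⟨n, hn⟩ : ∃ n, n = ⌊Real.exp lam⌋₊ := ⟨_, rfl⟩
  have hn1 : (n : ℝ) ≤ Real.exp lam := by rw [hn]; exact Nat.floor_le (by positivity)
  have hn2 : Real.exp lam / 2 ≤ n := by rw [hn]; exact floor_ge_half (Real.one_le_exp hlam0)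
  have hn0 : (0 : ℝ) < n := lt_of_lt_of_le (by positivity) hn2
  have hn3 : lam - Real.log 2 ≤ Real.log n := by
    rw [Real.le_log_iff_exp_le hn0, Real.exp_sub, Real.exp_log (by norm_num)]
    exact hn2
  have hlamdL : lam ≤ d * L := by
    rw [hlam]
    have h1 : (1 - δ) * t ≤ d := by linarith only [htdr, hδt]
    have h2 : q ≤ L := by linarith only [hq1, hδL2]
    exact mul_le_mul h1 h2 (by linarith only [hq4]) hdr.le
  have hts : t + M * t ≤ k := by
    have h1 : ((t + M * t : ℕ) : ℝ) ≤ k := by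
      push_cast
      have h2 : (t : ℝ) + M * t ≤ R * d := by
        have h3 := mul_le_mul_of_nonneg_left htdr hM0.le
        have h4 := mul_le_mul_of_nonneg_right hR1 hdr.le
        linarith only [h3, h4, htdr, hdr]
      linarith only [h2, hRdk]
    exact_mod_cast h1
  have hpow : ∀ r : ℕ, (n.choose r : ℝ) ≤ Real.exp (r * lam) := by
    intro r
    have h1 : (n.choose r : ℝ) ≤ (n : ℝ) ^ r := by exact_mod_cast Nat.choose_le_pow n r
    refine h1.trans ?_
    rw [Real.exp_nat_mul]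
    exact pow_le_pow_left₀ hn0.le hn1 r
  have hexph : Real.exp (-1) < 1 / 2 := by
    have := Real.exp_neg_one_lt_d9; linarith
  have hA : (n.choose k : ℝ) * (1 - 1 / Q) ^ (k.choose 2) < 1 / 2 := by
    have h1 : (1 - 1 / (Q : ℝ)) ^ (k.choose 2) ≤ Real.exp (-(k * (k - 1) / 2) / Q) := by
      have e : -((k : ℝ) * (k - 1) / 2) / Q = (k.choose 2 : ℝ) * (-(1 / Q)) := by
        rw [Nat.cast_choose_two]; ring
      rw [e, Real.exp_nat_mul]
      apply pow_le_pow_left₀
      · rw [sub_nonneg, div_le_one hQ0]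
        have : 1 ≤ Q := Nat.one_le_iff_ne_zero.mpr hQne
        exact_mod_cast this
      · exact Real.one_sub_le_exp_neg _
    have h2 : lam + 1 ≤ (k - 1) / 2 / Q := by
      have h3 : d * (L + 1) ≤ (k : ℝ) / 4 / Q := by
        have h4 : (k : ℝ) / 4 / Real.exp ((1 - δ) * L) ≤ (k : ℝ) / 4 / Q :=
          div_le_div_of_nonneg_left (by positivity) hQ0 hQ1
        refine le_trans ?_ h4
        have e2 : (k : ℝ) = d * Real.exp L := by rw [hexpL]; field_simp
        have e3 : (k : ℝ) / 4 / Real.exp ((1 - δ) * L) = d * (Real.exp (δ * L) / 4) := by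
          rw [e2, show L = (1 - δ) * L + δ * L by ring, Real.exp_add]
          have := (Real.exp_pos ((1 - δ) * L)).ne'
          rw [show (1 - δ) * ((1 - δ) * L + δ * L) = (1 - δ) * L by ring,
            show δ * ((1 - δ) * L + δ * L) = δ * L by ring]
          field_simp
        rw [e3]
        apply mul_le_mul_of_nonneg_left _ hdr.le
        have h5 := Real.quadratic_le_exp_of_nonneg (x := δ * L) (by positivity)
        have h6 : (δ * L) ^ 2 = (δ ^ 2 * L) * L := by ring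
        have h7 : 16 * L ≤ (δ ^ 2 * L) * L := mul_le_mul_of_nonneg_right hδL hL0.le
        linarith only [h5, h6, h7, hδL2, hL0]
      have h8 : (k : ℝ) / 4 / Q ≤ (k - 1) / 2 / Q := by
        apply div_le_div_of_nonneg_right _ hQ0.le
        have h9 : (1 : ℝ) ≤ d := by exact_mod_cast hd0
        have h10 := mul_le_mul_of_nonneg_left h9 hR0.le
        linarith only [h10, hRdk, hR1, hM0]
      have h9 : lam + 1 ≤ d * (L + 1) := by
        have h10 : (1 : ℝ) ≤ d := by exact_mod_cast hd0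
        linarith only [h10, hlamdL]
      linarith only [h3, h8, h9]
    have h3 : (n.choose k : ℝ) * (1 - 1 / Q) ^ (k.choose 2) ≤ Real.exp (-1) := by
      refine (mul_le_mul (hpow k) h1 ?_ (Real.exp_pos _).le).trans ?_
      · apply pow_nonneg
        rw [sub_nonneg, div_le_one hQ0]
        have : 1 ≤ Q := Nat.one_le_iff_ne_zero.mpr hQne
        exact_mod_cast this
      · rw [← Real.exp_add, Real.exp_le_exp]
        have e : (k : ℝ) * lam + -(k * (k - 1) / 2) / Q = k * (lam - (k - 1) / 2 / Q) := by ring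
        rw [e]
        have hk1 : (1 : ℝ) ≤ k := by exact_mod_cast hk0
        have h4 : lam - ((k : ℝ) - 1) / 2 / Q ≤ -1 := by linarith only [h2]
        have h5 := mul_le_mul_of_nonneg_left h4 hkr.le
        linarith only [h5, hk1]
    linarith only [h3, hexph]
  have hB : (n.choose t : ℝ) * (n.choose (M * t)) / (Q : ℝ) ^ (t * (M * t)) < 1 / 2 := by
    have h1 : (n.choose t : ℝ) * (n.choose (M * t)) ≤ Real.exp (t * lam) * Real.exp ((M * t : ℕ) * lam) :=
      mul_le_mul (hpow t) (hpow (M * t)) (by positivity) (Real.exp_pos _).le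
    have h2 : (Q : ℝ) ^ (t * (M * t)) = Real.exp ((t * (M * t) : ℕ) * q) := by
      rw [Real.exp_nat_mul, hq, Real.exp_log hQ0]
    rw [h2, div_eq_mul_inv, ← Real.exp_neg]
    refine lt_of_le_of_lt (mul_le_mul_of_nonneg_right h1 (Real.exp_pos _).le) ?_
    rw [← Real.exp_add, ← Real.exp_add]
    refine lt_of_le_of_lt (Real.exp_le_exp.mpr (?_ : _ ≤ (-1 : ℝ))) hexph
    push_cast
    rw [hlam]
    have e : (t : ℝ) * ((1 - δ) * t * q) + M * t * ((1 - δ) * t * q) + -(t * (M * t) * q) =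
        -((δ * M + δ - 1) * (t * (t * q))) := by ring
    rw [e]
    have h3 : δ ≤ δ * M + δ - 1 := by linarith
    have h4 : 0 ≤ (t : ℝ) * (t * q) := by positivity
    have h5 := mul_le_mul_of_nonneg_right h3 h4
    have h6 : 1 ≤ δ * (t * (t * q)) := by
      have h7 : 1 ≤ (t : ℝ) * q := one_le_mul_of_one_le_of_one_le ht1' hq4
      calc (1 : ℝ) = 1 * 1 := by ring
        _ ≤ (δ * t) * (t * q) := mul_le_mul hδt h7 zero_le_one (by positivity)
        _ = _ := by ring
    linarith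
  obtain ⟨G, hG1, hG2, hG3⟩ := exists_graph (n := n) (k := k) (t := t) (s := M * t) (Q := Q) hts
    (by linarith)
  refine ⟨n, G, hG1, hG2, ?_, ?_⟩
  · rw [← htj]
    exact ldim_of_bipartite G hs hG3
  · rw [← hL]
    refine le_trans ?_ hn3
    have h1 : (1 - 5 * δ) * (d * L) ≤ lam := by
      have h2 : (1 - δ) * ((1 - 2 * δ) * d) * ((1 - 2 * δ) * L) ≤ lam := by
        rw [hlam]
        apply mul_le_mul _ hq3 (mul_nonneg (by linarith) hL0.le)
        · exact mul_nonneg (by linarith) ht0.le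
        · exact mul_le_mul_of_nonneg_left ht3 (by linarith)
      refine le_trans ?_ h2
      have h3 : (1 - 5 * δ) ≤ (1 - δ) * (1 - 2 * δ) * (1 - 2 * δ) := by
        have h4 := mul_nonneg (mul_nonneg hδ.le hδ.le) (by linarith only [hδ1] : (0 : ℝ) ≤ 2 - δ)
        linarith only [h4]
      have h4 := mul_le_mul_of_nonneg_right h3 (by positivity : 0 ≤ (d : ℝ) * L)
      calc (1 - 5 * δ) * (d * L) ≤ _ := h4
        _ = _ := by ring
    have h5 : 1 ≤ δ * (d * L) := by
      have h6 := mul_le_mul hδd hL16' (by norm_num) (mul_nonneg hδ.le hdr.le)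
      linarith only [h6]
    linarith only [h1, h5, hl2']

end Pool.Agent.V7H5.LD
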