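import Pool.Agent.V7H5.LD.Asy

set_option autoImplicit false

/-! Graphs of given Littlestone dimension: the growth of the Ramsey numbers. -/

namespace Pool.Agent.V7H5.LD

open Finset Filter Topology

/-- the orders of the graphs -/
def ords (k d : ℕ) : Set ℕ :=
  {n | ∃ G : SimpleGraph (Fin n), (G.CliqueFree k ∧ Gᶜ.CliqueFree k) ∧ ¬ MT G (d + 1) Set.univ}

/-- the largest order -/
noncomputable def ord (k d : ℕ) : ℕ := sSup (ords k d)

theorem ords_bdd {k : ℕ} (hk : 1 ≤ k) (d : ℕ) : BddAbove (ords k d) := by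
  refine ⟨bs (d + 1) (2 * k - 2), ?_⟩
  rintro n ⟨G, ⟨h1, h2⟩, h3⟩
  exact (upper_diag hk G h1 h2 h3).le

theorem ord_mem {k : ℕ} (hk : 1 ≤ k) (d : ℕ) : ord k d ∈ ords k d := by
  apply Nat.sSup_mem _ (ords_bdd hk d)
  refine ⟨0, ⊥, ⟨?_, ?_⟩, ?_⟩
  · intro s hs
    have h1 := hs.2
    have h2 : s.card = 0 := by
      have := card_le_univ s
      simpa using this
    omega
  · intro s hs
    have h1 := hs.2
    have h2 : s.card = 0 := by
      have := card_le_univ s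
      simpa using this
    omega
  · intro h
    obtain ⟨w, _⟩ := MT_nonempty _ _ h
    exact w.elim0

theorem le_ord {k d n : ℕ} (hk : 1 ≤ k) (h : n ∈ ords k d) : n ≤ ord k d :=
  le_csSup (ords_bdd hk d) h

theorem ord_lt {k : ℕ} (hk : 1 ≤ k) (d : ℕ) : ord k d < bs (d + 1) (2 * k - 2) := by
  obtain ⟨G, ⟨h1, h2⟩, h3⟩ := ord_mem hk d
  exact upper_diag hk G h1 h2 h3

/-- both bounds -/
theorem ord_sharp {η : ℝ} (hη : 0 < η) : ∃ R : ℕ, 1 ≤ R ∧ ∀ d k : ℕ, R ≤ d → R * d ≤ k →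
    (1 - η) * (d * Real.log ((k : ℝ) / d)) ≤ Real.log (ord k d) ∧
      Real.log (ord k d) ≤ (1 + η) * (d * Real.log ((k : ℝ) / d)) := by
  obtain ⟨δ, hδ⟩ : ∃ δ, δ = min (1 / 12) (η / 6) := ⟨_, rfl⟩
  have hδ0 : 0 < δ := by rw [hδ]; exact lt_min (by norm_num) (by positivity)
  have hδ1 : δ ≤ 1 / 12 := by rw [hδ]; exact min_le_left _ _
  have hδ2 : 6 * δ ≤ η := by
    have : δ ≤ η / 6 := by rw [hδ]; exact min_le_right _ _
    linarith
  obtain ⟨R1, hR1, H1⟩ := lower_sharp hδ0 hδ1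
  obtain ⟨R2, hR2, H2⟩ := upper_sharp hη
  refine ⟨max R1 R2, le_max_of_le_left hR1, fun d k hd hk => ?_⟩
  have hd1 : R1 ≤ d := (le_max_left _ _).trans hd
  have hd2 : R2 ≤ d := (le_max_right _ _).trans hd
  have hk1 : R1 * d ≤ k := (Nat.mul_le_mul_right d (le_max_left _ _)).trans hk
  have hk2 : R2 * d ≤ k := (Nat.mul_le_mul_right d (le_max_right _ _)).trans hk
  have hd0 : 0 < d := by omega
  have hk0 : 1 ≤ k := le_trans (Nat.mul_pos (by omega) hd0) hk1
  have hdk : d ≤ k := le_trans (Nat.le_mul_of_pos_left d (by omega)) hk1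
  constructor
  · obtain ⟨n, G, g1, g2, g3, g4⟩ := H1 d k hd1 hk1
    have h1 : n ≤ ord k d := le_ord hk0 ⟨G, ⟨g1, g2⟩, g3⟩
    have hL : 0 ≤ (d : ℝ) * Real.log ((k : ℝ) / d) := by
      apply mul_nonneg (by positivity)
      apply Real.log_nonneg
      rw [one_le_div (by exact_mod_cast hd0)]
      exact_mod_cast hdk
    have h2 : Real.log n ≤ Real.log (ord k d) := by
      rcases Nat.eq_zero_or_pos n with h0 | h0
      · rw [h0]
        simp only [Nat.cast_zero, Real.log_zero]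
        rcases Nat.eq_zero_or_pos (ord k d) with h | h
        · rw [h]; simp
        · exact Real.log_nonneg (by exact_mod_cast h)
      · exact Real.log_le_log (by exact_mod_cast h0) (by exact_mod_cast h1)
    refine le_trans ?_ (g4.trans h2)
    exact mul_le_mul_of_nonneg_right (by linarith) hL
  · obtain ⟨G, ⟨g1, g2⟩, g3⟩ := ord_mem hk0 d
    exact H2 d k hd2 hk2 _ G g1 g2 g3

theorem growth (d : ℕ → ℕ) (h1 : Tendsto d atTop atTop)
    (h2 : Tendsto (fun k : ℕ => (k : ℝ) / d k) atTop atTop) :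
    Tendsto (fun k : ℕ => Real.log (ord k (d k)) / (d k * Real.log ((k : ℝ) / d k))) atTop (𝓝 1) := by
  rw [Metric.tendsto_nhds]
  intro η hη
  obtain ⟨R, hR, H⟩ := ord_sharp (half_pos hη)
  filter_upwards [h1.eventually_ge_atTop R, h2.eventually_ge_atTop (max R 2)] with k hk1 hk2
  have hd0 : 0 < d k := by omega
  have hdr : (0 : ℝ) < d k := by exact_mod_cast hd0
  have hk3 : (R : ℝ) ≤ (k : ℝ) / d k := (le_max_left _ _).trans hk2
  have hk4 : (2 : ℝ) ≤ (k : ℝ) / d k := (le_max_right _ _).trans hk2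
  have hk5 : R * d k ≤ k := by
    rw [le_div_iff₀ hdr] at hk3
    exact_mod_cast hk3
  obtain ⟨g1, g2⟩ := H (d k) k hk1 hk5
  have hL : 0 < Real.log ((k : ℝ) / d k) := Real.log_pos (by linarith)
  have hP : 0 < (d k : ℝ) * Real.log ((k : ℝ) / d k) := by positivity
  rw [Real.dist_eq, abs_lt]
  constructor
  · rw [lt_sub_iff_add_lt, lt_div_iff₀ hP]
    nlinarith
  · rw [sub_lt_iff_lt_add, div_lt_iff₀ hP]
    nlinarith

theorem rate {η : ℝ} (hη : 0 < η) : ∃ ε₀ : ℝ, 0 < ε₀ ∧ ∀ ε : ℝ, 0 < ε → ε ≤ ε₀ → ∀ᶠ k : ℕ in atTop,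
    (1 - η) * (ε * Real.log (1 / ε)) ≤ Real.log (ord k ⌊ε * k⌋₊) / k ∧
      Real.log (ord k ⌊ε * k⌋₊) / k ≤ (1 + η) * (ε * Real.log (1 / ε)) := by
  obtain ⟨θ, hθ⟩ : ∃ θ, θ = min (1 / 2) (η / 4) := ⟨_, rfl⟩
  have hθ0 : 0 < θ := by rw [hθ]; exact lt_min (by norm_num) (by positivity)
  have hθ1 : θ ≤ 1 / 2 := by rw [hθ]; exact min_le_left _ _
  have hθ2 : 4 * θ ≤ η := by
    have : θ ≤ η / 4 := by rw [hθ]; exact min_le_right _ _
    linarith
  obtain ⟨R, hR, H⟩ := ord_sharp hθ0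
  have hRr : (1 : ℝ) ≤ R := by exact_mod_cast hR
  refine ⟨min (1 / R) (Real.exp (-1)), lt_min (by positivity) (Real.exp_pos _), fun ε hε hε1 => ?_⟩
  have hεR : ε * R ≤ 1 := by
    have := (hε1.trans (min_le_left _ _))
    rw [le_div_iff₀ (by linarith)] at this
    exact this
  have hL1 : 1 ≤ Real.log (1 / ε) := by
    rw [Real.le_log_iff_exp_le (by positivity), le_div_iff₀ hε]
    have h3 : ε ≤ Real.exp (-1) := hε1.trans (min_le_right _ _)
    calc Real.exp 1 * ε ≤ Real.exp 1 * Real.exp (-1) := mul_le_mul_of_nonneg_left h3 (Real.exp_pos _).le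
      _ = 1 := by rw [← Real.exp_add]; simp
  have hev : ∀ᶠ k : ℕ in atTop, (R : ℝ) + 1 ≤ ε * k ∧ 1 ≤ θ * (ε * k) ∧ (1 : ℝ) ≤ k := by
    have t1 : Tendsto (fun k : ℕ => ε * (k : ℝ)) atTop atTop :=
      tendsto_natCast_atTop_atTop.const_mul_atTop hε
    have t2 : Tendsto (fun k : ℕ => θ * (ε * (k : ℝ))) atTop atTop := t1.const_mul_atTop hθ0
    filter_upwards [t1.eventually_ge_atTop ((R : ℝ) + 1), t2.eventually_ge_atTop 1,
      tendsto_natCast_atTop_atTop.eventually_ge_atTop (1 : ℝ)] with k g1 g2 g3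
    exact ⟨g1, g2, g3⟩
  filter_upwards [hev] with k hk
  obtain ⟨hk1, hk2, hk3⟩ := hk
  obtain ⟨d, hd⟩ : ∃ d, d = ⌊ε * (k : ℝ)⌋₊ := ⟨_, rfl⟩
  rw [← hd]
  have hεk : 0 ≤ ε * k := by positivity
  have hd1 : (d : ℝ) ≤ ε * k := by rw [hd]; exact Nat.floor_le hεk
  have hd2 : ε * k < d + 1 := by rw [hd]; exact Nat.lt_floor_add_one _
  have hdR : R ≤ d := by
    have : (R : ℝ) ≤ d := by linarith
    exact_mod_cast this
  have hRd : R * d ≤ k := by
    have : (R : ℝ) * d ≤ k := by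
      calc (R : ℝ) * d ≤ R * (ε * k) := mul_le_mul_of_nonneg_left hd1 (by linarith)
        _ = (ε * R) * k := by ring
        _ ≤ 1 * k := mul_le_mul_of_nonneg_right hεR (by linarith)
        _ = k := one_mul _
    exact_mod_cast this
  obtain ⟨g1, g2⟩ := H d k hdR hRd
  have hdr : (0 : ℝ) < d := by linarith
  have hkr : (0 : ℝ) < k := by linarith
  have hd3 : (1 - θ) * (ε * k) ≤ d := by nlinarith
  obtain ⟨Λ, hΛ⟩ : ∃ Λ, Λ = Real.log (1 / ε) := ⟨_, rfl⟩
  rw [← hΛ] at hL1 ⊢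
  have l1 : Λ ≤ Real.log ((k : ℝ) / d) := by
    rw [hΛ]
    apply Real.log_le_log (by positivity)
    rw [div_le_div_iff₀ hε hdr]
    linarith
  have l2 : Real.log ((k : ℝ) / d) ≤ Λ + 2 * θ := by
    have h3 : (k : ℝ) / d ≤ (1 / ε) * (1 / (1 - θ)) := by
      rw [div_mul_div_comm, one_mul, div_le_div_iff₀ hdr (mul_pos hε (by linarith))]
      nlinarith
    have h4 := Real.log_le_log (by positivity) h3
    rw [Real.log_mul (by positivity) (by
      have : 0 < 1 / (1 - θ) := by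
        apply div_pos one_pos; linarith
      exact this.ne'), ← hΛ] at h4
    have h5 : Real.log (1 / (1 - θ)) ≤ 2 * θ := by
      rw [Real.log_le_iff_le_exp (by apply div_pos one_pos; linarith)]
      have h6 := Real.add_one_le_exp (2 * θ)
      refine le_trans ?_ h6
      rw [div_le_iff₀ (by linarith)]
      nlinarith
    linarith
  constructor
  · rw [le_div_iff₀ hkr]
    refine le_trans ?_ g1
    have h3 : (1 - θ) * (ε * k) * Λ ≤ d * Real.log ((k : ℝ) / d) :=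
      mul_le_mul hd3 l1 (by linarith) hdr.le
    have h4 : (1 - θ) * ((1 - θ) * (ε * k) * Λ) ≤ (1 - θ) * (d * Real.log ((k : ℝ) / d)) :=
      mul_le_mul_of_nonneg_left h3 (by linarith)
    refine le_trans ?_ h4
    have h5 : 0 ≤ ε * k * Λ := by positivity
    have h6 : 1 - η ≤ (1 - θ) * (1 - θ) := by nlinarith
    have h7 := mul_le_mul_of_nonneg_right h6 h5
    calc (1 - η) * (ε * Λ) * k = (1 - η) * (ε * k * Λ) := by ring
      _ ≤ _ := h7
      _ = _ := by ring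
  · rw [div_le_iff₀ hkr]
    refine g2.trans ?_
    have h3 : d * Real.log ((k : ℝ) / d) ≤ (ε * k) * (Λ + 2 * θ) := by
      apply mul_le_mul hd1 l2 (by linarith) hεk
    have h4 : (1 + θ) * (d * Real.log ((k : ℝ) / d)) ≤ (1 + θ) * ((ε * k) * (Λ + 2 * θ)) :=
      mul_le_mul_of_nonneg_left h3 (by linarith)
    refine h4.trans ?_
    have h5 : Λ + 2 * θ ≤ (1 + 2 * θ) * Λ := by nlinarith
    have h6 : (1 + θ) * ((ε * k) * (Λ + 2 * θ)) ≤ (1 + θ) * ((ε * k) * ((1 + 2 * θ) * Λ)) := by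
      apply mul_le_mul_of_nonneg_left _ (by linarith)
      exact mul_le_mul_of_nonneg_left h5 hεk
    refine h6.trans ?_
    have h7 : 0 ≤ ε * k * Λ := by positivity
    have h8 : (1 + θ) * (1 + 2 * θ) ≤ 1 + η := by nlinarith
    have h9 := mul_le_mul_of_nonneg_right h8 h7
    calc (1 + θ) * ((ε * k) * ((1 + 2 * θ) * Λ)) = (1 + θ) * (1 + 2 * θ) * (ε * k * Λ) := by ring
      _ ≤ _ := h9
      _ = _ := by ring

/-- large colourings have large Littlestone dimension -/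
theorem large : ∃ K : ℕ, ∀ k : ℕ, K ≤ k → ∀ (n : ℕ) (G : SimpleGraph (Fin n)), G.CliqueFree k →
    Gᶜ.CliqueFree k → (2 : ℝ) ^ ((k : ℝ) / 2) ≤ n → MT G (⌊(k : ℝ) / 13⌋₊ + 1) Set.univ := by
  refine ⟨200, fun k hk n G h1 h2 hn => ?_⟩
  by_contra hcon
  have h3 := log_upper (x := 1 / 25) (by omega) (by norm_num) (by norm_num) G h1 h2 hcon
  have h4 : Real.log ((2 : ℝ) ^ ((k : ℝ) / 2)) ≤ Real.log n :=
    Real.log_le_log (by positivity) hn
  rw [Real.log_rpow (by norm_num)] at h4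
  have h5 : Real.log (1 / (1 / 25 : ℝ)) ≤ 93 / 20 * Real.log 2 := by
    have e1 : (20 : ℝ) * Real.log 25 ≤ 93 * Real.log 2 := by
      have : Real.log ((25 : ℝ) ^ 20) ≤ Real.log ((2 : ℝ) ^ 93) :=
        Real.log_le_log (by norm_num) (by norm_num)
      rw [Real.log_pow, Real.log_pow] at this
      exact_mod_cast this
    have e2 : (1 : ℝ) / (1 / 25) = 25 := by norm_num
    rw [e2]
    linarith
  have h6 : (⌊(k : ℝ) / 13⌋₊ : ℝ) ≤ k / 13 := Nat.floor_le (by positivity)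
  have hk' : (200 : ℝ) ≤ k := by exact_mod_cast hk
  have hl := Real.log_two_gt_d9
  have hl' := Real.log_two_lt_d9
  have h7 : ((⌊(k : ℝ) / 13⌋₊ : ℝ) + 1) * Real.log (1 / (1 / 25 : ℝ)) ≤ (k / 13 + 1) * (93 / 20 * Real.log 2) := by
    apply mul_le_mul (by linarith) h5 _ (by positivity)
    apply Real.log_nonneg
    norm_num
  nlinarith

theorem bs_le_two_pow (e m : ℕ) : bs e m ≤ 2 ^ m := by
  unfold bs
  rw [← Nat.sum_range_choose]
  rcases le_total e m with h | h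
  · exact sum_le_sum_of_subset (range_subset_range.mpr (by omega))
  · apply le_of_eq
    symm
    apply sum_subset (range_subset_range.mpr (by omega))
    intro j _ hj
    rw [mem_range] at hj
    exact Nat.choose_eq_zero_of_lt (by omega)

theorem not_MT {n k d : ℕ} (hk : 1 ≤ k) (hd : 2 * k ≤ d + 3) (G : SimpleGraph (Fin n))
    (h1 : G.CliqueFree k) (h2 : Gᶜ.CliqueFree k) : ¬ MT G (d + 1) Set.univ := by
  intro h
  have h3 : ¬ MT G (n + 1) Set.univ := by
    intro h4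
    have h5 := MT_card G (n + 1) univ (by simpa using h4)
    rw [card_univ, Fintype.card_fin] at h5
    have := (Nat.lt_two_pow_self : n + 1 < 2 ^ (n + 1))
    omega
  have h4 := upper_diag hk G h1 h2 h3
  have h5 := bs_le_two_pow (n + 1) (2 * k - 2)
  have h6 := MT_card G (d + 1) univ (by simpa using h)
  rw [card_univ, Fintype.card_fin] at h6
  have h7 : 2 ^ (2 * k - 2) ≤ 2 ^ (d + 1) := Nat.pow_le_pow_right (by norm_num) (by omega)
  omega

theorem ord_eq_ramsey {k d : ℕ} (hk : 1 ≤ k) (hd : 2 * k ≤ d + 3) :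
    ord k d + 1 = sInf {n : ℕ | ∀ G : SimpleGraph (Fin n), ¬ (G.CliqueFree k ∧ Gᶜ.CliqueFree k)} := by
  symm
  have hmem : ord k d + 1 ∈ {n : ℕ | ∀ G : SimpleGraph (Fin n), ¬ (G.CliqueFree k ∧ Gᶜ.CliqueFree k)} := by
    intro G hG
    have : ord k d + 1 ∈ ords k d := ⟨G, hG, not_MT hk hd G hG.1 hG.2⟩
    have := le_ord hk this
    omega
  apply le_antisymm (Nat.sInf_le hmem)
  by_contra hcon
  rw [not_le] at hcon
  have h1 := Nat.sInf_mem ⟨_, hmem⟩
  obtain ⟨m, hm⟩ : ∃ m, m = sInf {n : ℕ | ∀ G : SimpleGraph (Fin n), ¬ (G.CliqueFree k ∧ Gᶜ.CliqueFree k)} := ⟨_, rfl⟩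
  rw [← hm] at h1 hcon
  obtain ⟨G, ⟨g1, g2⟩, -⟩ := ord_mem hk d
  have hle : m ≤ ord k d := by omega
  let f : Fin m ↪ Fin (ord k d) := Fin.castLEEmb hle
  let e : G.comap f ↪g G := SimpleGraph.Embedding.comap f G
  apply h1 (G.comap f)
  refine ⟨g1.comap ⟨e.toCopy⟩, ?_⟩
  exact g2.comap ⟨(SimpleGraph.Embedding.complEquiv e).toCopy⟩

end Pool.Agent.V7H5.LD
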