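import Pool.Agent.V7H5.LD.Up

set_option autoImplicit false

/-! Graphs of given Littlestone dimension: random graphs. -/

namespace Pool.Agent.V7H5.LD

open Finset

theorem MT_path {V : Type*} [DecidableEq V] (G : SimpleGraph V) : ∀ (t j : ℕ) {W : Set V},
    MT G (t + j) W → ∃ T : Finset V, T.card = t ∧ (∀ y ∈ T, ∃ w ∈ W, ¬ G.Adj y w) ∧
      MT G j {w | w ∈ W ∧ ∀ x ∈ T, G.Adj x w} := by
  intro t
  induction t with
  | zero =>
    intro j W h
    refine ⟨∅, rfl, by simp, ?_⟩
    rw [zero_add] at h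
    exact MT_mono G j (fun w hw => ⟨hw, by simp⟩) h
  | succ t ih =>
    intro j W h
    rw [show t + 1 + j = (t + j) + 1 by ring] at h
    obtain ⟨x, h1, h2⟩ := h
    obtain ⟨T, hT1, hT2, hT3⟩ := ih j h1
    obtain ⟨w0, hw0, hw0'⟩ := MT_nonempty G _ h2
    have hx : x ∉ T := by
      intro hx
      obtain ⟨w, hw, hw'⟩ := hT2 x hx
      exact hw' hw.2
    refine ⟨insert x T, by rw [card_insert_of_notMem hx, hT1], ?_, ?_⟩
    · intro y hy
      rw [mem_insert] at hy
      rcases hy with rfl | hy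
      · exact ⟨w0, hw0, hw0'⟩
      · obtain ⟨w, hw, hw'⟩ := hT2 y hy
        exact ⟨w, hw.1, hw'⟩
    · refine MT_mono G j ?_ hT3
      rintro w ⟨⟨hw1, hw2⟩, hw3⟩
      refine ⟨hw1, fun y hy => ?_⟩
      rw [mem_insert] at hy
      rcases hy with rfl | hy
      · exact hw2
      · exact hw3 y hy

/-- no complete bipartite graph with `t` and `s` vertices implies a small Littlestone dimension -/
theorem ldim_of_bipartite {V : Type*} [Fintype V] [DecidableEq V] (G : SimpleGraph V) {t s j : ℕ}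
    (hs : s ≤ 2 ^ j)
    (h : ∀ T S : Finset V, Disjoint T S → T.card = t → S.card = s → ∃ x ∈ T, ∃ y ∈ S, ¬ G.Adj x y) :
    ¬ MT G (t + j) Set.univ := by
  classical
  intro hM
  obtain ⟨T, hT1, -, hT3⟩ := MT_path G t j hM
  obtain ⟨C, hC⟩ : ∃ C : Finset V, C = univ.filter (fun w => ∀ x ∈ T, G.Adj x w) := ⟨_, rfl⟩
  have e1 : {w | w ∈ (Set.univ : Set V) ∧ ∀ x ∈ T, G.Adj x w} = (C : Set V) := by
    ext w
    rw [hC]
    simp
  rw [e1] at hT3
  have h1 := MT_card G j C hT3
  obtain ⟨S, hS1, hS2⟩ := exists_subset_card_eq (hs.trans h1)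
  obtain ⟨x, hx, y, hy, hxy⟩ := h T S (by
    rw [disjoint_left]
    intro x hx hx'
    have := hS1 hx'
    rw [hC, mem_filter] at this
    exact G.loopless.irrefl _ (this.2 x hx)) hT1 hS2
  have := hS1 hy
  rw [hC, mem_filter] at this
  exact hxy (this.2 x hx)

/-- counting functions with prescribed values -/
theorem count_fun {α β : Type*} [Fintype α] [DecidableEq α] [Fintype β] [DecidableEq β]
    (E : Finset α) (A : Finset β) :
    ((univ : Finset (α → β)).filter (fun c => ∀ e ∈ E, c e ∈ A)).card =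
      A.card ^ E.card * Fintype.card β ^ (Fintype.card α - E.card) := by
  have h1 : (univ : Finset (α → β)).filter (fun c => ∀ e ∈ E, c e ∈ A) =
      Fintype.piFinset (fun e => if e ∈ E then A else univ) := by
    ext c
    simp only [mem_filter, mem_univ, true_and, Fintype.mem_piFinset]
    constructor
    · intro h e
      split_ifs with he
      · exact h e he
      · exact mem_univ _
    · intro h e he
      have := h e
      rwa [if_pos he] at this
  rw [h1, Fintype.card_piFinset]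
  have h2 : ∀ e : α, (if e ∈ E then A else univ).card = if e ∈ E then A.card else Fintype.card β := by
    intro e
    split_ifs
    · rfl
    · exact card_univ
  simp_rw [h2]
  rw [prod_ite, prod_const, prod_const]
  congr 2
  · congr 1
    ext e
    simp
  · rw [← card_univ, ← card_sdiff_of_subset (subset_univ E)]
    congr 1
    ext e
    simp

/-- the random graph -/
def gr {n Q : ℕ} [NeZero Q] (c : Sym2 (Fin n) → Fin Q) : SimpleGraph (Fin n) where
  Adj i j := i ≠ j ∧ c s(i, j) = 0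
  symm := ⟨fun i j h => ⟨h.1.symm, by rw [Sym2.eq_swap]; exact h.2⟩⟩
  loopless := ⟨fun _ h => h.1 rfl⟩

/-- pairs inside a set -/
def E1 {n : ℕ} (S : Finset (Fin n)) : Finset (Sym2 (Fin n)) :=
  S.offDiag.image (Function.uncurry Sym2.mk)

/-- pairs between two sets -/
def E2 {n : ℕ} (T S : Finset (Fin n)) : Finset (Sym2 (Fin n)) :=
  (T ×ˢ S).image (Function.uncurry Sym2.mk)

theorem card_E2 {n : ℕ} {T S : Finset (Fin n)} (h : Disjoint T S) : (E2 T S).card = T.card * S.card := by
  unfold E2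
  rw [card_image_of_injOn, card_product]
  rintro ⟨a, b⟩ hab ⟨c, d⟩ hcd he
  rw [mem_coe, mem_product] at hab hcd
  simp only [Function.uncurry_apply_pair, Sym2.eq_iff] at he
  rcases he with he | he
  · rw [he.1, he.2]
  · exfalso
    rw [disjoint_left] at h
    exact h hab.1 (he.1 ▸ hcd.2)

theorem exists_graph {n k t s Q : ℕ} [NeZero Q] (hk : t + s ≤ k)
    (h : (n.choose k : ℝ) * (1 - 1 / Q) ^ (k.choose 2) +
      (n.choose t) * (n.choose s) / (Q : ℝ) ^ (t * s) < 1) :
    ∃ G : SimpleGraph (Fin n), G.CliqueFree k ∧ Gᶜ.CliqueFree k ∧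
      ∀ T S : Finset (Fin n), Disjoint T S → T.card = t → S.card = s →
        ∃ x ∈ T, ∃ y ∈ S, ¬ G.Adj x y := by
  classical
  have hQ : 0 < Q := Nat.pos_of_ne_zero (NeZero.ne Q)
  have hQr : (0 : ℝ) < Q := by exact_mod_cast hQ
  obtain ⟨M, hM⟩ : ∃ M, M = Fintype.card (Sym2 (Fin n)) := ⟨_, rfl⟩
  -- bad sets
  let B1 : Finset (Fin n) → Finset (Sym2 (Fin n) → Fin Q) := fun S =>
    univ.filter (fun c => ∀ e ∈ E1 S, c e ∈ (univ.erase (0 : Fin Q)))
  let B2 : Finset (Fin n) × Finset (Fin n) → Finset (Sym2 (Fin n) → Fin Q) := fun p =>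
    univ.filter (fun c => ∀ e ∈ E2 p.1 p.2, c e ∈ ({0} : Finset (Fin Q)))
  have hc1 : ∀ S : Finset (Fin n), S.card = k → ((B1 S).card : ℝ) = (1 - 1 / Q) ^ (k.choose 2) * (Q : ℝ) ^ M := by
    intro S hS
    have h1 := count_fun (β := Fin Q) (E1 S) (univ.erase (0 : Fin Q))
    have h2 : (E1 S).card = k.choose 2 := by
      rw [← hS]
      exact Sym2.card_image_offDiag S
    have h3 : (E1 S).card ≤ M := by rw [hM]; exact card_le_univ _
    rw [← hM, h2, card_erase_of_mem (mem_univ _), card_univ, Fintype.card_fin] at h1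
    rw [h2] at h3
    show ((B1 S).card : ℝ) = _
    rw [h1]
    push_cast
    rw [Nat.cast_sub hQ]
    push_cast
    have h4 : (Q : ℝ) ^ M = (Q : ℝ) ^ (k.choose 2) * (Q : ℝ) ^ (M - k.choose 2) := by
      rw [← pow_add, Nat.add_sub_cancel' h3]
    rw [h4, ← mul_assoc, ← mul_pow]
    congr 2
    field_simp
  have hc2 : ∀ T S : Finset (Fin n), Disjoint T S → T.card = t → S.card = s →
      ((B2 (T, S)).card : ℝ) = (Q : ℝ) ^ M / (Q : ℝ) ^ (t * s) := by
    intro T S hd hT hS
    have h1 := count_fun (β := Fin Q) (E2 T S) ({0} : Finset (Fin Q))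
    have h2 : (E2 T S).card = t * s := by rw [card_E2 hd, hT, hS]
    have h3 : (E2 T S).card ≤ M := by rw [hM]; exact card_le_univ _
    rw [← hM, h2, card_singleton, one_pow, one_mul, Fintype.card_fin] at h1
    rw [h2] at h3
    show ((B2 (T, S)).card : ℝ) = _
    rw [h1, eq_div_iff (by positivity)]
    push_cast
    rw [← pow_add, Nat.sub_add_cancel h3]
  obtain ⟨P1, hP1⟩ : ∃ P1, P1 = (univ : Finset (Fin n)).powersetCard k := ⟨_, rfl⟩
  obtain ⟨P2, hP2⟩ : ∃ P2, P2 = (((univ : Finset (Fin n)).powersetCard t) ×ˢ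
      ((univ : Finset (Fin n)).powersetCard s)).filter (fun p => Disjoint p.1 p.2) := ⟨_, rfl⟩
  have hP1c : P1.card = n.choose k := by rw [hP1, card_powersetCard, card_univ, Fintype.card_fin]
  have hP2c : P2.card ≤ n.choose t * n.choose s := by
    rw [hP2]
    refine (card_filter_le _ _).trans ?_
    rw [card_product, card_powersetCard, card_powersetCard, card_univ, Fintype.card_fin]
  have hbad : ((P1.biUnion B1 ∪ P2.biUnion B2).card : ℝ) < (Q : ℝ) ^ M := by
    have h1 : ((P1.biUnion B1).card : ℝ) ≤ (n.choose k : ℝ) * ((1 - 1 / Q) ^ (k.choose 2) * (Q : ℝ) ^ M) := by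
      have : ((P1.biUnion B1).card : ℝ) ≤ ∑ S ∈ P1, ((B1 S).card : ℝ) := by exact_mod_cast card_biUnion_le
      refine this.trans (le_of_eq ?_)
      rw [sum_congr rfl (fun S hS => hc1 S (by rw [hP1, mem_powersetCard] at hS; exact hS.2)),
        sum_const, hP1c, nsmul_eq_mul]
    have h2 : ((P2.biUnion B2).card : ℝ) ≤ ((n.choose t : ℝ) * (n.choose s)) * ((Q : ℝ) ^ M / (Q : ℝ) ^ (t * s)) := by
      have : ((P2.biUnion B2).card : ℝ) ≤ ∑ p ∈ P2, ((B2 p).card : ℝ) := by exact_mod_cast card_biUnion_le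
      refine this.trans ?_
      rw [sum_congr rfl (fun p hp => hc2 p.1 p.2 (by rw [hP2, mem_filter] at hp; exact hp.2)
        (by rw [hP2, mem_filter, mem_product, mem_powersetCard] at hp; exact hp.1.1.2)
        (by rw [hP2, mem_filter, mem_product, mem_powersetCard, mem_powersetCard] at hp; exact hp.1.2.2)),
        sum_const, nsmul_eq_mul]
      apply mul_le_mul_of_nonneg_right _ (by positivity)
      exact_mod_cast hP2c
    have h3 : ((P1.biUnion B1 ∪ P2.biUnion B2).card : ℝ) ≤ (P1.biUnion B1).card + (P2.biUnion B2).card := by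
      exact_mod_cast card_union_le _ _
    have hQM : (0 : ℝ) < (Q : ℝ) ^ M := by positivity
    have h4 := mul_lt_mul_of_pos_right h hQM
    rw [one_mul] at h4
    have h5 : ((n.choose k : ℝ) * (1 - 1 / Q) ^ (k.choose 2) +
      (n.choose t) * (n.choose s) / (Q : ℝ) ^ (t * s)) * (Q : ℝ) ^ M =
      (n.choose k : ℝ) * ((1 - 1 / Q) ^ (k.choose 2) * (Q : ℝ) ^ M) +
      ((n.choose t : ℝ) * (n.choose s)) * ((Q : ℝ) ^ M / (Q : ℝ) ^ (t * s)) := by ring
    linarith
  have hex : ∃ c : Sym2 (Fin n) → Fin Q, c ∉ P1.biUnion B1 ∪ P2.biUnion B2 := by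
    by_contra hcon
    push Not at hcon
    have h1 : P1.biUnion B1 ∪ P2.biUnion B2 = univ := eq_univ_of_forall hcon
    rw [h1, card_univ, Fintype.card_fun, Fintype.card_fin, ← hM] at hbad
    push_cast at hbad
    exact lt_irrefl _ hbad
  obtain ⟨c, hc⟩ := hex
  rw [mem_union, not_or, mem_biUnion, mem_biUnion] at hc
  obtain ⟨hcA, hcB⟩ := hc
  push Not at hcA hcB
  have prop : ∀ T S : Finset (Fin n), Disjoint T S → T.card = t → S.card = s →
        ∃ x ∈ T, ∃ y ∈ S, ¬ (gr c).Adj x y := by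
    intro T S hd hT hS
    by_contra hcon
    push Not at hcon
    apply hcB (T, S) (by
      rw [hP2, mem_filter, mem_product, mem_powersetCard, mem_powersetCard]
      exact ⟨⟨⟨subset_univ _, hT⟩, ⟨subset_univ _, hS⟩⟩, hd⟩)
    show c ∈ univ.filter _
    rw [mem_filter]
    refine ⟨mem_univ _, fun e he => ?_⟩
    rw [mem_singleton]
    unfold E2 at he
    rw [mem_image] at he
    obtain ⟨⟨x, y⟩, hxy, rfl⟩ := he
    rw [mem_product] at hxy
    exact (hcon x hxy.1 y hxy.2).2
  refine ⟨gr c, ?_, ?_, prop⟩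
  · intro s' hs'
    rw [SimpleGraph.isNClique_iff] at hs'
    obtain ⟨T, hT1, hT2⟩ := exists_subset_card_eq (s := s') (n := t) (by omega)
    obtain ⟨S, hS1, hS2⟩ := exists_subset_card_eq (s := s' \ T) (n := s) (by
      rw [card_sdiff_of_subset hT1]
      omega)
    have hd : Disjoint T S := by
      rw [disjoint_left]
      intro x hx hx'
      have := hS1 hx'
      rw [mem_sdiff] at this
      exact this.2 hx
    obtain ⟨x, hx, y, hy, hxy⟩ := prop T S hd hT2 hS2
    have hy' := hS1 hy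
    rw [mem_sdiff] at hy'
    exact hxy (hs'.1 (hT1 hx) hy'.1 (fun h => by subst h; exact hy'.2 hx))
  · intro S hS
    rw [SimpleGraph.isNClique_iff] at hS
    apply hcA S (by rw [hP1, mem_powersetCard]; exact ⟨subset_univ _, hS.2⟩)
    show c ∈ univ.filter _
    rw [mem_filter]
    refine ⟨mem_univ _, fun e he => ?_⟩
    rw [mem_erase]
    refine ⟨?_, mem_univ _⟩
    unfold E1 at he
    rw [mem_image] at he
    obtain ⟨⟨x, y⟩, hxy, rfl⟩ := he
    rw [mem_offDiag] at hxy
    intro h0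
    have h1 := hS.1 (show x ∈ (S : Set (Fin n)) from hxy.1) hxy.2.1 hxy.2.2
    rw [SimpleGraph.compl_adj] at h1
    exact h1.2 ⟨hxy.2.2, h0⟩

end Pool.Agent.V7H5.LD
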