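import Mathlib

set_option autoImplicit false

/-! Graphs of given Littlestone dimension: the upper bound. -/

namespace Pool.Agent.V7H5.LD

open Finset

variable {V : Type*}

/-- a complete mistake tree of depth `d` for the vertices in `W` -/
def MT (G : SimpleGraph V) : ℕ → Set V → Prop
  | 0, W => W.Nonempty
  | d + 1, W => ∃ x, MT G d {w | w ∈ W ∧ G.Adj x w} ∧ MT G d {w | w ∈ W ∧ ¬ G.Adj x w}

theorem MT_mono (G : SimpleGraph V) : ∀ (d : ℕ) {W W' : Set V}, W ⊆ W' → MT G d W → MT G d W'
  | 0, _, _, h, hW => hW.mono h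
  | d + 1, _, _, h, ⟨x, h1, h2⟩ =>
    ⟨x, MT_mono G d (fun _ hw => ⟨h hw.1, hw.2⟩) h1, MT_mono G d (fun _ hw => ⟨h hw.1, hw.2⟩) h2⟩

theorem MT_nonempty (G : SimpleGraph V) : ∀ (d : ℕ) {W : Set V}, MT G d W → W.Nonempty
  | 0, _, h => h
  | d + 1, _, ⟨_, h1, _⟩ => (MT_nonempty G d h1).mono fun _ hw => hw.1

theorem MT_pred (G : SimpleGraph V) : ∀ (d : ℕ) {W : Set V}, MT G (d + 1) W → MT G d W
  | 0, _, ⟨_, h1, _⟩ => h1.mono fun _ hw => hw.1
  | d + 1, _, ⟨x, h1, h2⟩ => ⟨x, MT_pred G d h1, MT_pred G d h2⟩

theorem MT_le (G : SimpleGraph V) {d e : ℕ} (h : d ≤ e) {W : Set V} (hW : MT G e W) : MT G d W := by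
  induction e, h using Nat.le_induction with
  | base => exact hW
  | succ e _ ih => exact ih (MT_pred G e hW)

theorem MT_card (G : SimpleGraph V) [DecidableEq V] : ∀ (d : ℕ) (W : Finset V), MT G d (W : Set V) → 2 ^ d ≤ W.card
  | 0, W, h => by
    obtain ⟨w, hw⟩ := h
    exact card_pos.mpr ⟨w, hw⟩
  | d + 1, W, ⟨x, h1, h2⟩ => by
    classical
    have e1 : {w | w ∈ (W : Set V) ∧ G.Adj x w} = ((W.filter (fun w => G.Adj x w) : Finset V) : Set V) := by
      ext w; simp
    have e2 : {w | w ∈ (W : Set V) ∧ ¬ G.Adj x w} = ((W.filter (fun w => ¬ G.Adj x w) : Finset V) : Set V) := by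
      ext w; simp
    rw [e1] at h1
    rw [e2] at h2
    have h3 := MT_card G d _ h1
    have h4 := MT_card G d _ h2
    have h5 := card_filter_add_card_filter_not (s := W) (fun w => G.Adj x w)
    rw [pow_succ]
    omega

/-- sums of binomial coefficients -/
def bs (e m : ℕ) : ℕ := ∑ j ∈ range (e + 1), m.choose j

theorem bs_zero (m : ℕ) : bs 0 m = 1 := by simp [bs]

theorem bs_pos (e m : ℕ) : 1 ≤ bs e m := by
  unfold bs
  rw [sum_range_succ']
  simp

theorem bs_succ (e m : ℕ) : bs (e + 1) (m + 1) = bs e m + bs (e + 1) m := by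
  unfold bs
  rw [sum_range_succ' _ (e + 1), sum_range_succ' (fun j => m.choose j) (e + 1)]
  simp only [Nat.choose_succ_succ, sum_add_distrib, Nat.choose_zero_right]
  ring

theorem upper (G : SimpleGraph V) [DecidableEq V] : ∀ (m e a b : ℕ), 1 ≤ a → 1 ≤ b → a + b = m + 2 →
    ∀ W : Finset V, ¬ MT G e (W : Set V) → (∀ s ⊆ W, ¬ G.IsNClique a s) →
      (∀ s ⊆ W, ¬ Gᶜ.IsNClique b s) → W.card + 1 ≤ bs e m := by
  intro m
  induction m with
  | zero =>
    intro e a b ha hb hab W hW h1 h2
    have ha1 : a = 1 := by omega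
    rcases W.eq_empty_or_nonempty with h | ⟨x, hx⟩
    · subst h
      simpa using bs_pos e 0
    · exfalso
      apply h1 {x} (by simpa using hx)
      rw [ha1]
      simp
  | succ m ih =>
    intro e a b ha hb hab W hW h1 h2
    rcases W.eq_empty_or_nonempty with h | ⟨x, hx⟩
    · subst h
      simpa using bs_pos e (m + 1)
    · classical
      cases e with
      | zero => exact absurd ⟨x, hx⟩ hW
      | succ e =>
        have ha2 : a ≠ 1 := by
          rintro rfl
          apply h1 {x} (by simpa using hx)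
          simp
        have hb2 : b ≠ 1 := by
          rintro rfl
          apply h2 {x} (by simpa using hx)
          simp
        obtain ⟨a', rfl⟩ : ∃ a', a = a' + 2 := ⟨a - 2, by omega⟩
        obtain ⟨b', rfl⟩ : ∃ b', b = b' + 2 := ⟨b - 2, by omega⟩
        obtain ⟨W1, hW1⟩ : ∃ W1, W1 = W.filter (fun w => G.Adj x w) := ⟨_, rfl⟩
        obtain ⟨W0, hW0⟩ : ∃ W0, W0 = (W.erase x).filter (fun w => ¬ G.Adj x w) := ⟨_, rfl⟩
        have hsub1 : W1 ⊆ W := by rw [hW1]; exact filter_subset _ _
        have hsub0 : W0 ⊆ W := by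
          rw [hW0]
          exact (filter_subset _ _).trans (erase_subset _ _)
        have hcard : W.card = W1.card + W0.card + 1 := by
          have e1 : W1 = (W.erase x).filter (fun w => G.Adj x w) := by
            rw [hW1]
            ext w
            simp only [mem_filter, mem_erase]
            constructor
            · rintro ⟨h3, h4⟩
              exact ⟨⟨fun h5 => by subst h5; exact G.loopless.irrefl _ h4, h3⟩, h4⟩
            · rintro ⟨⟨_, h3⟩, h4⟩
              exact ⟨h3, h4⟩
          rw [e1, hW0, card_filter_add_card_filter_not, card_erase_of_mem hx]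
          have := card_pos.mpr ⟨x, hx⟩
          omega
        have c1 : ∀ s ⊆ W1, ¬ G.IsNClique (a' + 1) s := by
          intro s hs hs2
          refine h1 (insert x s) (insert_subset hx (hs.trans hsub1)) (hs2.insert fun y hy => ?_)
          have := hs hy
          rw [hW1, mem_filter] at this
          exact this.2
        have c2 : ∀ s ⊆ W1, ¬ Gᶜ.IsNClique (b' + 2) s := fun s hs => h2 s (hs.trans hsub1)
        have c3 : ∀ s ⊆ W0, ¬ G.IsNClique (a' + 2) s := fun s hs => h1 s (hs.trans hsub0)
        have c4 : ∀ s ⊆ W0, ¬ Gᶜ.IsNClique (b' + 1) s := by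
          intro s hs hs2
          refine h2 (insert x s) (insert_subset hx (hs.trans hsub0)) (hs2.insert fun y hy => ?_)
          have := hs hy
          rw [hW0, mem_filter, mem_erase] at this
          rw [SimpleGraph.compl_adj]
          exact ⟨this.1.1.symm, this.2⟩
        have m1 : ¬ MT G (e + 1) (W1 : Set V) := fun h => hW (MT_mono G _ (by exact_mod_cast hsub1) h)
        have m0 : ¬ MT G (e + 1) (W0 : Set V) := fun h => hW (MT_mono G _ (by exact_mod_cast hsub0) h)
        have key : ¬ MT G e (W1 : Set V) ∨ ¬ MT G e (W0 : Set V) := by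
          by_contra hcon
          push Not at hcon
          apply hW
          refine ⟨x, MT_mono G e ?_ hcon.1, MT_mono G e ?_ hcon.2⟩
          · intro w hw
            rw [hW1] at hw
            simpa using hw
          · intro w hw
            rw [hW0] at hw
            have : w ∈ (W.erase x).filter (fun w => ¬ G.Adj x w) := by exact_mod_cast hw
            rw [mem_filter, mem_erase] at this
            exact ⟨by exact_mod_cast this.1.2, this.2⟩
        rw [bs_succ]
        rcases key with k1 | k0
        · have i1 := ih e (a' + 1) (b' + 2) (by omega) (by omega) (by omega) W1 k1 c1 c2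
          have i0 := ih (e + 1) (a' + 2) (b' + 1) (by omega) (by omega) (by omega) W0 m0 c3 c4
          omega
        · have i1 := ih (e + 1) (a' + 1) (b' + 2) (by omega) (by omega) (by omega) W1 m1 c1 c2
          have i0 := ih e (a' + 2) (b' + 1) (by omega) (by omega) (by omega) W0 k0 c3 c4
          omega

/-- the bound for the diagonal case -/
theorem upper_diag {n k d : ℕ} (hk : 1 ≤ k) (G : SimpleGraph (Fin n)) (h1 : G.CliqueFree k)
    (h2 : Gᶜ.CliqueFree k) (h3 : ¬ MT G (d + 1) Set.univ) : n < bs (d + 1) (2 * k - 2) := by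
  have := upper G (2 * k - 2) (d + 1) k k hk hk (by omega) univ (by simpa using h3)
    (fun s _ => h1 s) (fun s _ => h2 s)
  simpa using this

end Pool.Agent.V7H5.LD
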